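import Pool.Agent.H556Z.Main

/-!
Every star-regular ring belongs to the variety generated by the artinian star-regular rings.
-/

namespace Pool.Agent.Results.MP_b20f23_al.AllStarRegular

open Pool.Agent.H556Z.SR

universe u

/-- An identity in the signature `(+, -, ·, 0, 1, *, ⁺)` which holds in all artinian star-regular
rings holds in every star-regular ring. -/
theorem result (R : Type u) [Ring R] [StarRing R] (hR : IsStarRegular R) (s t : Tm)
    (h : ∀ (A : Type u) [Ring A] [StarRing A], IsStarRegular A → IsArtinianRing A →
      IsArtinianRing Aᵐᵒᵖ → Holds A s t) : Holds R s t :=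
  holds_all hR h

end Pool.Agent.Results.MP_b20f23_al.AllStarRegular
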